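import Pool.Agent.H266MU

/-!
# The 600-cell and the 120-cell are Möbius unique
-/

set_option autoImplicit false
open Set

namespace Pool.Agent.Results.MP_dcc731_co.MobiusUnique

noncomputable section

/-- Euclidean `4`-space -/
abbrev E4 := Fin 4 → ℝ

/-- the unit sphere `S³` -/
abbrev S3 := {x : E4 // ∑ i, x i ^ 2 = 1}

/-- `P` is an edge-scribed convex `4`-polytope: the convex hull of a finite set, with nonempty interior,
and for every edge (segment between two vertices which is a face) the line through it is tangent to `S³` at a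
point of the edge: this point is on the sphere and no point of the line is inside the sphere. -/
structure EdgeScribed (P : Set E4) : Prop where
  polytope : ∃ V : Finset E4, P = convexHull ℝ (V : Set E4)
  full : (interior P).Nonempty
  tangent : ∀ a ∈ P.extremePoints ℝ, ∀ b ∈ P.extremePoints ℝ, a ≠ b → IsExposed ℝ P (segment ℝ a b) →
    ∃ p ∈ segment ℝ a b, ∑ i, p i ^ 2 = 1 ∧ ∀ t : ℝ, 1 ≤ ∑ i, (a i + t * (b i - a i)) ^ 2

/-- `f` is a combinatorial isomorphism of the polytope `P` onto the polytope `Q`: a bijection between the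
vertex sets such that a set of vertices spans a face of `P` if and only if its image spans a face of `Q`. -/
def CombIso (P Q : Set E4) (f : E4 → E4) : Prop :=
  BijOn f (P.extremePoints ℝ) (Q.extremePoints ℝ) ∧ ∀ S ⊆ P.extremePoints ℝ,
    (IsExposed ℝ P (convexHull ℝ S) ↔ IsExposed ℝ Q (convexHull ℝ (f '' S)))

/-- `P` and `Q` have the same combinatorial type -/
def CombEquiv (P Q : Set E4) : Prop := ∃ f : E4 → E4, CombIso P Q f

/-- the part of `S³` visible from `v` -/
def cap (v : E4) : Set S3 := {x | 1 ≤ ∑ i, x.1 i * v i}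

/-- the ball arrangement of `P` (on `S³`, i.e. before stereographic projection) -/
def ballArrangement (P : Set E4) : Set (Set S3) := cap '' P.extremePoints ℝ

/-- the Lorentz form of `ℝ^{4,1}`; the time coordinate is `none` -/
def form (x y : Option (Fin 4) → ℝ) : ℝ := (∑ i : Fin 4, x (some i) * y (some i)) - x none * y none

/-- homogeneous coordinates `(x, 1)` -/
def lift (x : E4) : Option (Fin 4) → ℝ := fun i => Option.elim i (1 : ℝ) x

/-- `μ` is a Möbius transformation of `S³`: there is a linear map `T` of `ℝ^{4,1}` preserving the Lorentz form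
such that `μ x` is the point of `S³` with homogeneous coordinates `T (x, 1)`. -/
def IsMoebius (μ : S3 → S3) : Prop :=
  ∃ T : (Option (Fin 4) → ℝ) →ₗ[ℝ] (Option (Fin 4) → ℝ), (∀ x y, form (T x) (T y) = form x y) ∧
    ∀ x : S3, T (lift x) none ≠ 0 ∧ ∀ j, (μ x).1 j = T (lift x) (some j) / T (lift x) none

/-- The combinatorial type of `R` is Möbius unique: for any two edge-scribed realizations `P`, `Q` there is a
Möbius transformation mapping the ball arrangement of `P` onto that of `Q`; moreover every combinatorial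
isomorphism of `P` onto `Q` is induced by a Möbius transformation. -/
def MoebiusUnique (R : Set E4) : Prop :=
  ∀ P Q : Set E4, EdgeScribed P → EdgeScribed Q → CombEquiv P R → CombEquiv Q R →
    (∃ μ : S3 → S3, IsMoebius μ ∧ (fun c => μ '' c) '' ballArrangement P = ballArrangement Q) ∧
    ∀ f : E4 → E4, CombIso P Q f → ∃ μ : S3 → S3, IsMoebius μ ∧
      ∀ v ∈ P.extremePoints ℝ, μ '' cap v = cap (f v)

/-- the golden ratio -/
def φ : ℝ := (1 + Real.sqrt 5) / 2

/-- The `120` vertices of the regular 600-cell: `± eᵢ`, `(±1/2, ±1/2, ±1/2, ±1/2)` and the even permutations of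
`(±φ/2, ±1/2, ±φ⁻¹/2, 0)`. -/
def icosians : Set E4 :=
  {x | (∃ i, |x i| = 1 ∧ ∀ j, j ≠ i → x j = 0) ∨ (∀ i, |x i| = 1 / 2) ∨
    ∃ σ : Equiv.Perm (Fin 4), Equiv.Perm.sign σ = 1 ∧ |x (σ 0)| = φ / 2 ∧ |x (σ 1)| = 1 / 2 ∧
      |x (σ 2)| = φ⁻¹ / 2 ∧ x (σ 3) = 0}

/-- the regular 600-cell `{3,3,5}` -/
def cell600 : Set E4 := convexHull ℝ icosians

/-- the regular 120-cell `{5,3,3}`, the polar dual of the regular 600-cell -/
def cell120 : Set E4 := {x | ∀ v ∈ icosians, ∑ i, x i * v i ≤ 1}

theorem form_lift (x y : E4) : form (lift x) (lift y) = ∑ i, x i * y i - 1 := by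
  simp [form, lift]

theorem form_null {X : Option (Fin 4) → ℝ} (h : form X X = 0) :
    ∑ i : Fin 4, X (some i) ^ 2 = X none ^ 2 := by
  unfold form at h
  have : ∑ i : Fin 4, X (some i) ^ 2 = ∑ i : Fin 4, X (some i) * X (some i) :=
    Finset.sum_congr rfl fun i _ => by ring
  rw [this]
  linarith

/-- two null vectors with negative product have time coordinates of the same sign -/
theorem same_sign {X Y : Option (Fin 4) → ℝ} (hX : form X X = 0) (hY : form Y Y = 0)
    (hXY : form X Y < 0) : 0 < X none * Y none := by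
  have h1 := form_null hX
  have h2 := form_null hY
  have h3 : (∑ i : Fin 4, X (some i) * Y (some i)) ^ 2 ≤
      (∑ i : Fin 4, X (some i) ^ 2) * ∑ i : Fin 4, Y (some i) ^ 2 :=
    Finset.sum_mul_sq_le_sq_mul_sq _ _ _
  rw [h1, h2] at h3
  unfold form at hXY
  by_contra hcon
  push Not at hcon
  nlinarith [sq_nonneg (∑ i : Fin 4, X (some i) * Y (some i)),
    sq_nonneg (X none * Y none)]

theorem lt_one_of_ne (x y : S3) (h : x ≠ y) : ∑ i, x.1 i * y.1 i < 1 := by
  by_contra hcon
  push Not at hcon
  apply h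
  have h1 : ∑ i, (x.1 i - y.1 i) ^ 2 = 2 - 2 * ∑ i, x.1 i * y.1 i := by
    have : ∀ i, (x.1 i - y.1 i) ^ 2 = x.1 i ^ 2 + y.1 i ^ 2 - 2 * (x.1 i * y.1 i) := fun i => by ring
    simp only [this]
    rw [Finset.sum_sub_distrib, Finset.sum_add_distrib, x.2, y.2, ← Finset.mul_sum]
    ring
  have h2 : ∑ i, (x.1 i - y.1 i) ^ 2 = 0 :=
    le_antisymm (by linarith) (Finset.sum_nonneg fun i _ => sq_nonneg _)
  rw [Finset.sum_eq_zero_iff_of_nonneg fun i _ => sq_nonneg _] at h2
  apply Subtype.ext
  funext i
  have := h2 i (Finset.mem_univ i)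
  have := pow_eq_zero_iff (two_ne_zero) |>.1 this
  linarith

theorem form_inj (T : (Option (Fin 4) → ℝ) →ₗ[ℝ] (Option (Fin 4) → ℝ))
    (hT : ∀ x y, form (T x) (T y) = form x y) : Function.Injective T := by
  rw [injective_iff_map_eq_zero]
  intro x hx
  have h : ∀ y, form x y = 0 := by
    intro y
    rw [← hT, hx]
    simp [form]
  funext j
  rcases j with _ | j
  · have := h (fun i => Option.elim i (1 : ℝ) (fun _ => 0))
    simp [form] at this
    simpa using this
  · have := h (fun i => Option.elim i (0 : ℝ) (fun k => if k = j then 1 else 0))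
    simp [form] at this
    simpa using this

/-- from the Lorentz transformation to the Möbius transformation -/
theorem moebius_of (T : (Option (Fin 4) → ℝ) →ₗ[ℝ] (Option (Fin 4) → ℝ))
    (hT : ∀ x y, form (T x) (T y) = form x y) (p : S3) (hp : 0 < T (lift p) none)
    (A : Set E4) (f : E4 → E4) (hf : ∀ a ∈ A, ∃ c : ℝ, 0 < c ∧ T (lift a) = c • lift (f a)) :
    ∃ μ : S3 → S3, IsMoebius μ ∧ ∀ v ∈ A, μ '' cap v = cap (f v) := by
  have hnull : ∀ x : S3, form (T (lift x)) (T (lift x)) = 0 := by
    intro x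
    rw [hT, form_lift]
    have : ∑ i, x.1 i * x.1 i = ∑ i, x.1 i ^ 2 := Finset.sum_congr rfl fun i _ => by ring
    rw [this, x.2]
    ring
  have hpos : ∀ x : S3, 0 < T (lift x) none := by
    intro x
    by_cases h : x = p
    · rw [h]; exact hp
    · have h1 := same_sign (hnull x) (hnull p) (by
        rw [hT, form_lift]
        have := lt_one_of_ne x p h
        linarith)
      exact (pos_iff_pos_of_mul_pos h1).2 hp
  let μ : S3 → S3 := fun x => ⟨fun j => T (lift x) (some j) / T (lift x) none, by
    have h1 := form_null (hnull x)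
    have h2 := (hpos x).ne'
    simp only [div_pow]
    rw [← Finset.sum_div, h1]
    field_simp⟩
  have hμ : ∀ x : S3, T (lift x) = T (lift x) none • lift (μ x) := by
    intro x
    have h2 := (hpos x).ne'
    funext j
    rcases j with _ | j
    · simp [lift]
    · simp only [lift, Pi.smul_apply, smul_eq_mul, Option.elim]
      show T (lift x) (some j) = T (lift x) none * (T (lift x) (some j) / T (lift x) none)
      field_simp
  have hmem : ∀ v ∈ A, ∀ x : S3, x ∈ cap v ↔ μ x ∈ cap (f v) := by
    intro v hv x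
    obtain ⟨c, hc, hcv⟩ := hf v hv
    have h1 : form (T (lift x)) (T (lift v)) = form (lift x) (lift v) := hT _ _
    rw [hμ x, hcv, form_lift] at h1
    have h2 : form (T (lift x) none • lift (μ x)) (c • lift (f v)) =
        T (lift x) none * c * form (lift (μ x)) (lift (f v)) := by
      simp only [form, Pi.smul_apply, smul_eq_mul]
      rw [mul_sub, Finset.mul_sum]
      congr 1
      · exact Finset.sum_congr rfl fun i _ => by ring
      · ring
    rw [h2, form_lift] at h1
    have h3 : 0 < T (lift x) none * c := mul_pos (hpos x) hc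
    change (1 ≤ ∑ i, x.1 i * v i) ↔ (1 ≤ ∑ i, (μ x).1 i * (f v) i)
    constructor
    · intro h
      by_contra hcon
      push Not at hcon
      nlinarith
    · intro h
      by_contra hcon
      push Not at hcon
      nlinarith
  have hsurj : Function.Surjective μ := by
    intro y
    have hbij : Function.Surjective T := LinearMap.surjective_of_injective (form_inj T hT)
    obtain ⟨X, hX⟩ := hbij (lift y)
    have hXn : form X X = 0 := by
      rw [← hT, hX, form_lift]
      have : ∑ i, y.1 i * y.1 i = ∑ i, y.1 i ^ 2 := Finset.sum_congr rfl fun i _ => by ring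
      rw [this, y.2]
      ring
    have h1 := form_null hXn
    have h0 : X none ≠ 0 := by
      intro h0
      rw [h0] at h1
      have h2 : ∀ i ∈ Finset.univ, X (some i) ^ 2 = 0 := by
        rw [← Finset.sum_eq_zero_iff_of_nonneg fun i _ => sq_nonneg _]
        rw [h1]
        ring
      have h3 : X = 0 := by
        funext j
        rcases j with _ | j
        · exact h0
        · exact pow_eq_zero_iff (two_ne_zero) |>.1 (h2 j (Finset.mem_univ j))
      rw [h3, map_zero] at hX
      have := congrFun hX none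
      simp [lift] at this
    let x : S3 := ⟨fun j => X (some j) / X none, by
      simp only [div_pow]
      rw [← Finset.sum_div, h1]
      field_simp⟩
    have hx : X = X none • lift x := by
      funext j
      rcases j with _ | j
      · simp [lift]
      · simp only [lift, Pi.smul_apply, smul_eq_mul, Option.elim]
        show X (some j) = X none * (X (some j) / X none)
        field_simp
    refine ⟨x, ?_⟩
    have h4 : lift y = (X none * T (lift x) none) • lift (μ x) := by
      rw [← hX, hx, map_smul, ← hx, hμ x, smul_smul]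
      congr 2
      simp [lift]
    have h5 := congrFun h4 none
    simp only [lift, Option.elim, Pi.smul_apply, smul_eq_mul, mul_one] at h5
    rw [← h5, one_smul] at h4
    apply Subtype.ext
    funext j
    have := congrFun h4 (some j)
    simp only [lift, Option.elim] at this
    exact this.symm
  refine ⟨μ, ⟨T, hT, fun x => ⟨(hpos x).ne', fun j => rfl⟩⟩, fun v hv => ?_⟩
  ext y
  constructor
  · rintro ⟨x, hx, rfl⟩
    exact (hmem v hv x).1 hx
  · intro hy
    obtain ⟨x, rfl⟩ := hsurj y
    exact ⟨x, (hmem v hv x).2 hy, rfl⟩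

theorem finset_of (P : Set E4) (h : EdgeScribed P) :
    ∃ V : Finset E4, convexHull ℝ (V : Set E4) = P ∧ (V : Set E4) = P.extremePoints ℝ := by
  obtain ⟨V, hV⟩ := h.polytope
  have hfin : (P.extremePoints ℝ).Finite := by
    rw [hV]
    exact V.finite_toSet.subset extremePoints_convexHull_subset
  refine ⟨hfin.toFinset, ?_, hfin.coe_toFinset⟩
  rw [hfin.coe_toFinset]
  have hc : IsCompact P := by
    rw [hV]
    exact V.finite_toSet.isCompact_convexHull ℝ
  have hconv : Convex ℝ P := by
    rw [hV]
    exact convex_convexHull ℝ _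
  have h1 := closure_convexHull_extremePoints hc hconv
  rwa [(hfin.isClosed_convexHull ℝ).closure_eq] at h1

theorem induced (P Q : Set E4) (hP : EdgeScribed P) (hQ : EdgeScribed Q) (f : E4 → E4)
    (hf : CombIso P Q f) : ∃ μ : S3 → S3, IsMoebius μ ∧ ∀ v ∈ P.extremePoints ℝ, μ '' cap v = cap (f v) := by
  obtain ⟨V, hV, hV2⟩ := finset_of P hP
  obtain ⟨W, hW, hW2⟩ := finset_of Q hQ
  subst hV
  subst hW
  have tV : Pool.Agent.H242R3.ES.Tang V := by
    intro a ha b hb
    exact hP.tangent a (hV2 ▸ ha) b (hV2 ▸ hb)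
  have tW : Pool.Agent.H242R3.ES.Tang W := by
    intro a ha b hb
    exact hQ.tangent a (hW2 ▸ ha) b (hW2 ▸ hb)
  obtain ⟨T, hT, hTc⟩ := Pool.Agent.H266MU.strong 3 (by norm_num) V W hP.full hQ.full tV tW f hf.1 hf.2
  obtain ⟨a, ha, b, hb, hab, hexp⟩ := Pool.Agent.H266MU.exists_edge 4 (by norm_num) V hP.full
  obtain ⟨p, ⟨s, t, hs, ht, hst, hp⟩, hp1, -⟩ := hP.tangent a ha b hb hab hexp
  refine moebius_of T hT ⟨p, hp1⟩ ?_ _ f hTc
  obtain ⟨c, hc, hTa⟩ := hTc a ha
  obtain ⟨c', hc', hTb⟩ := hTc b hb
  have h1 : lift p = s • lift a + t • lift b := by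
    rw [← hp]
    funext j
    rcases j with _ | j
    · simp [lift, hst]
    · simp [lift]
  have h2 : T (lift p) = s • (c • lift (f a)) + t • (c' • lift (f b)) := by
    rw [h1, map_add, map_smul, map_smul]
    exact congrArg₂ _ (congrArg _ hTa) (congrArg _ hTb)
  show 0 < T (lift p) none
  rw [h2]
  simp only [Pi.add_apply, Pi.smul_apply, smul_eq_mul, lift, Option.elim, mul_one]
  rcases hs.eq_or_lt with h | h
  · have : t = 1 := by linarith
    rw [← h, this]
    linarith
  · have h3 : 0 < s * c := mul_pos h hc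
    have h4 : 0 ≤ t * c' := mul_nonneg ht hc'.le
    linarith

theorem combEquiv_of {P Q R : Set E4} (hP : CombEquiv P R) (hQ : CombEquiv Q R) : CombEquiv P Q := by
  obtain ⟨f, hf, hf2⟩ := hP
  obtain ⟨g, hg, hg2⟩ := hQ
  have hinv := hg.invOn_invFunOn
  have hg' : BijOn (Function.invFunOn g (Q.extremePoints ℝ)) (R.extremePoints ℝ) (Q.extremePoints ℝ) :=
    hg.symm ⟨hinv.2, hinv.1⟩
  refine ⟨Function.invFunOn g (Q.extremePoints ℝ) ∘ f, hg'.comp hf, fun S hS => ?_⟩
  have hS' : f '' S ⊆ R.extremePoints ℝ := (image_mono hS).trans hf.mapsTo.image_subset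
  rw [hf2 S hS, image_comp]
  have h1 : Function.invFunOn g (Q.extremePoints ℝ) '' (f '' S) ⊆ Q.extremePoints ℝ :=
    (image_mono hS').trans hg'.mapsTo.image_subset
  rw [hg2 _ h1]
  have h2 : g '' (Function.invFunOn g (Q.extremePoints ℝ) '' (f '' S)) = f '' S := by
    rw [← image_comp]
    have : EqOn (g ∘ Function.invFunOn g (Q.extremePoints ℝ)) id (f '' S) :=
      fun x hx => hinv.2 (hS' hx)
    rw [this.image_eq, image_id]
  rw [h2]

theorem moebiusUnique (R : Set E4) : MoebiusUnique R := by
  intro P Q hP hQ hPR hQR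
  refine ⟨?_, induced P Q hP hQ⟩
  obtain ⟨f, hf⟩ := combEquiv_of hPR hQR
  obtain ⟨μ, hμ, hcap⟩ := induced P Q hP hQ f hf
  refine ⟨μ, hμ, ?_⟩
  ext c
  constructor
  · rintro ⟨_, ⟨v, hv, rfl⟩, rfl⟩
    exact ⟨f v, hf.1.mapsTo hv, (hcap v hv).symm⟩
  · rintro ⟨w, hw, rfl⟩
    obtain ⟨v, hv, rfl⟩ := hf.1.surjOn hw
    exact ⟨_, ⟨v, hv, rfl⟩, hcap v hv⟩

/-- The 600-cell and the 120-cell are Möbius unique. -/
theorem result : MoebiusUnique cell600 ∧ MoebiusUnique cell120 :=
  ⟨moebiusUnique _, moebiusUnique _⟩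

end

end Pool.Agent.Results.MP_dcc731_co.MobiusUnique
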